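import Pool.Agent.R632.AffAut

/-! For every odd `d ≥ 3` there is a finite-state affine automorphism of the `d`-ary tree whose
automaton generates an infinite group which is not a finite extension of any restricted wreath
product `Z_d^k ≀ Z^l`. -/

namespace Pool.Agent.Results.MP_7b3742_al.NotVirtuallyLamplighter

open Equiv Pool.Agent.R632.Port Pool.Agent.R632.Port.W Pool.Agent.R632.AffAut

/-- `g` is the automorphism of the tree of words over `Z_d` given by `x ↦ b + x A` for an infinite
upper triangular matrix `A` with units on the diagonal: it preserves the length of words and for a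
word `w` and `j < |w|` the letter of `g w` at place `j` is `b j + ∑ i ≤ j, w i * A i j`. -/
def IsAffine {d : ℕ} (g : Perm (List (ZMod d))) : Prop :=
  ∃ (A : ℕ → ℕ → ZMod d) (b : ℕ → ZMod d), (∀ i, IsUnit (A i i)) ∧ (∀ i j, j < i → A i j = 0) ∧
    ∀ w : List (ZMod d), (g w).length = w.length ∧ ∀ j, j < w.length →
      (g w).getD j 0 = b j + ∑ i ∈ Finset.range (j + 1), w.getD i 0 * A i j

/-- The set of the states of `g`: `h` is the state of `g` at `v` if `g (v w) = g v (h w)` for all
words `w`. -/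
def states {X : Type} (g : Perm (List X)) : Set (Perm (List X)) :=
  {h | ∃ v : List X, ∀ w, g (v ++ w) = g v ++ h w}

/-- The group generated by the automaton of `g`. -/
def autGroup {X : Type} (g : Perm (List X)) : Subgroup (Perm (List X)) :=
  Subgroup.closure (states g)

/-- The restricted wreath product `Z_d^k ≀ Z^l`: pairs `(f, a)` with `f` a finitely supported
function from `Z^l` to `Z_d^k` and `a ∈ Z^l`. -/
@[ext] structure Lamp (d k l : ℕ) where
  /-- the element of the base group -/
  f : (Fin l → ℤ) →₀ (Fin k → ZMod d)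
  /-- the element of `Z^l` -/
  a : Fin l → ℤ

/-- The product of the wreath product: `(f, a) * (f', a') = (f + f'(· - a), a + a')`. -/
noncomputable instance (d k l : ℕ) : Mul (Lamp d k l) :=
  ⟨fun x y => ⟨x.f + y.f.equivMapDomain (Equiv.addLeft x.a), x.a + y.a⟩⟩

section

variable {d k l : ℕ}

lemma mul_f (x y : Lamp d k l) (v : Fin l → ℤ) : (x * y).f v = x.f v + y.f (-x.a + v) := rfl

lemma mul_a (x y : Lamp d k l) : (x * y).a = x.a + y.a := rfl

noncomputable instance : One (Lamp d k l) := ⟨⟨0, 0⟩⟩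

noncomputable instance : Inv (Lamp d k l) :=
  ⟨fun x => ⟨-(x.f.equivMapDomain (Equiv.addLeft (-x.a))), -x.a⟩⟩

lemma one_f (v : Fin l → ℤ) : (1 : Lamp d k l).f v = 0 := rfl

lemma one_a : (1 : Lamp d k l).a = 0 := rfl

lemma inv_f (x : Lamp d k l) (v : Fin l → ℤ) : (x⁻¹).f v = - x.f (x.a + v) := by
  show - x.f (-(-x.a) + v) = _
  rw [neg_neg]

lemma inv_a (x : Lamp d k l) : (x⁻¹).a = - x.a := rfl

lemma lamp_ext {x y : Lamp d k l} (h : x.a = y.a) (h' : ∀ v, x.f v = y.f v) : x = y :=
  Lamp.ext (Finsupp.ext h') h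

noncomputable instance : Group (Lamp d k l) where
  mul_assoc x y z := lamp_ext (by simp only [mul_a, add_assoc])
    (fun v => by simp only [mul_f, mul_a, add_assoc, neg_add_rev])
  one_mul x := lamp_ext (by simp only [mul_a, one_a, zero_add])
    (fun v => by simp only [mul_f, one_f, one_a, neg_zero, zero_add])
  mul_one x := lamp_ext (by simp only [mul_a, one_a, add_zero])
    (fun v => by simp only [mul_f, one_f, add_zero])
  inv_mul_cancel x := lamp_ext (by simp only [mul_a, inv_a, one_a, neg_add_cancel])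
    (fun v => by simp only [mul_f, inv_f, inv_a, one_f, neg_neg, neg_add_cancel])

lemma pow_of_a {x : Lamp d k l} (h : x.a = 0) (n : ℕ) :
    (x ^ n).a = 0 ∧ ∀ v, (x ^ n).f v = n • x.f v := by
  induction n with
  | zero => exact ⟨rfl, fun v => by rw [pow_zero, one_f, zero_smul]⟩
  | succ n ih =>
    refine ⟨by rw [pow_succ, mul_a, ih.1, h, add_zero], fun v => ?_⟩
    rw [pow_succ, mul_f, ih.2, ih.1, neg_zero, zero_add, succ_nsmul]

/-- the commutator of two elements of the wreath product has order dividing `d` -/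
lemma lamp_law (x y : Lamp d k l) : (x * y * x⁻¹ * y⁻¹) ^ d = 1 := by
  have h1 : (x * y * x⁻¹ * y⁻¹).a = 0 := by
    simp only [mul_a, inv_a]
    abel
  obtain ⟨h2, h3⟩ := pow_of_a h1 d
  refine lamp_ext h2 fun v => ?_
  rw [h3, one_f]
  funext i
  rw [Pi.smul_apply, nsmul_eq_mul, ZMod.natCast_self, zero_mul]
  rfl

end

variable {d : ℕ}

/-- the automorphism -/
def aut (d : ℕ) : Perm (List (ZMod d)) := toPerm (ga 1)

lemma secv_cases (v : List (ZMod d)) : ((ga (1 : ZMod d)).secv v = ga 1 ∨
    ∃ e, (ga (1 : ZMod d)).secv v = hb 1 e) ∧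
    ∀ e : ZMod d, ((hb (1 : ZMod d) e).secv v = ga 1 ∨
      ∃ e', (hb (1 : ZMod d) e).secv v = hb 1 e') := by
  induction v with
  | nil => exact ⟨Or.inl rfl, fun e => Or.inr ⟨e, rfl⟩⟩
  | cons x v ih =>
    refine ⟨?_, fun e => ?_⟩
    · rw [secv_cons, ga_sec]
      exact ih.2 _
    · rw [secv_cons, hb_sec]
      exact ih.1

lemma act_append_secv (g : W (ZMod d)) (v w : List (ZMod d)) :
    g.act (v ++ w) = g.act v ++ (g.secv v).act w := by
  induction v generalizing g with
  | nil => rfl
  | cons x v ih => rw [List.cons_append, act, act, ih, secv_cons, List.cons_append]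

lemma mem_states {h : Perm (List (ZMod d))} :
    h ∈ states (aut d) ↔ ∃ v, h = toPerm ((ga (1 : ZMod d)).secv v) := by
  constructor
  · rintro ⟨v, hv⟩
    refine ⟨v, Equiv.ext fun w => ?_⟩
    have h1 := hv w
    have h2 : (aut d) (v ++ w) = (aut d) v ++ ((ga (1 : ZMod d)).secv v).act w :=
      act_append_secv _ v w
    rw [h2] at h1
    exact (List.append_cancel_left h1).symm
  · rintro ⟨v, rfl⟩
    exact ⟨v, fun w => act_append_secv _ v w⟩

lemma states_finite [NeZero d] : (states (aut d)).Finite := by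
  refine ((Set.finite_singleton (toPerm (ga (1 : ZMod d)))).union
    (Set.finite_range (fun e : ZMod d => toPerm (hb 1 e)))).subset ?_
  intro h hh
  rw [mem_states] at hh
  obtain ⟨v, rfl⟩ := hh
  rcases (secv_cases v).1 with h | ⟨e, h⟩
  · left
    rw [h]
    rfl
  · right
    exact ⟨e, by rw [h]⟩

/-- the matrix of `aut d` -/
def mat (d : ℕ) (i j : ℕ) : ZMod d := if i = j then 1 else if j = i + 1 ∧ i % 2 = 0 then 1 else 0

lemma mat_self (i : ℕ) : mat d i i = 1 := if_pos rfl

lemma mat_zero {i j : ℕ} (h : i ≠ j) (h' : i + 1 ≠ j) : mat d i j = 0 := by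
  unfold mat
  rw [if_neg h, if_neg (fun h2 => h' h2.1.symm)]

lemma mat_succ (i : ℕ) : mat d i (i + 1) = if (i + 1) % 2 = 1 then 1 else 0 := by
  unfold mat
  rw [if_neg (by omega)]
  by_cases h : i % 2 = 0
  · rw [if_pos ⟨rfl, h⟩, if_pos (by omega)]
  · rw [if_neg (by tauto), if_neg (by omega)]

lemma isAffine : IsAffine (aut d) := by
  refine ⟨mat d, fun _ => 0, fun i => ?_, fun i j hij => mat_zero (by omega) (by omega),
    fun w => ⟨act_length _ _, fun j hj => ?_⟩⟩
  · rw [mat_self]
    exact isUnit_one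
  · have h1 : (aut d w).getD j 0 = w.getD j 0 + if j % 2 = 1 then 1 * w.getD (j - 1) 0 else 0 :=
      (coord w 1 j hj).1
    rw [h1, zero_add, Finset.sum_range_succ, mat_self, mul_one, add_comm]
    congr 1
    cases j with
    | zero => simp
    | succ j =>
      rw [Finset.sum_range_succ, Finset.sum_eq_zero, zero_add, Nat.add_sub_cancel, mat_succ]
      · split_ifs
        · rw [one_mul, mul_one]
        · rw [mul_zero]
      · intro i hi
        rw [Finset.mem_range] at hi
        rw [mat_zero (by omega) (by omega), mul_zero]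

lemma ga_mem : toPerm (ga (1 : ZMod d)) ∈ autGroup (aut d) :=
  Subgroup.subset_closure (mem_states.mpr ⟨[], rfl⟩)

lemma hb_mem : toPerm (hb (1 : ZMod d) 0) ∈ autGroup (aut d) := by
  refine Subgroup.subset_closure (mem_states.mpr ⟨[0], ?_⟩)
  rw [secv_cons, secv_nil, ga_sec, mul_zero]

/-- two elements of the group -/
def el1 (d : ℕ) : autGroup (aut d) := ⟨toPerm (hb 1 0) * toPerm (ga 1), mul_mem hb_mem ga_mem⟩

/-- two elements of the group -/
def el2 (d : ℕ) : autGroup (aut d) :=
  ⟨(toPerm (hb 1 0))⁻¹ * (toPerm (ga 1))⁻¹, mul_mem (inv_mem hb_mem) (inv_mem ga_mem)⟩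

lemma no_law [Fact (1 < d)] (h2 : IsUnit (2 : ZMod d)) (m n : ℕ) (hm : 0 < m) (hn : 0 < n) :
    (el1 d ^ m * el2 d ^ m * (el1 d ^ m)⁻¹ * (el2 d ^ m)⁻¹) ^ n ≠ 1 := by
  intro h
  have h1 := congrArg (fun x : autGroup (aut d) => (x : Perm (List (ZMod d)))) h
  have h3 : toPerm (((hb (1 : ZMod d) 0 * ga 1) ^ m * ((hb (1 : ZMod d) 0)⁻¹ * (ga 1)⁻¹) ^ m *
      ((hb (1 : ZMod d) 0 * ga 1) ^ m)⁻¹ * (((hb (1 : ZMod d) 0)⁻¹ * (ga 1)⁻¹) ^ m)⁻¹) ^ n) = 1 := by
    simp only [map_pow, map_mul, map_inv]
    exact h1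
  rw [← map_one toPerm] at h3
  exact comm_ne h2 m n hm hn (toPerm_injective h3)

/-- For every odd `d ≥ 3` there is a finite-state affine automorphism `g` of the `d`-ary rooted tree
such that the group generated by its automaton is infinite and has no normal subgroup of finite
index isomorphic to a restricted wreath product `Z_d^k ≀ Z^l`. -/
theorem result (d : ℕ) (hd : 3 ≤ d) (hodd : Odd d) : ∃ g : Perm (List (ZMod d)),
    IsAffine g ∧ (states g).Finite ∧ Infinite (autGroup g) ∧
      ∀ k l : ℕ, 1 ≤ k → 1 ≤ l → ∀ N : Subgroup (autGroup g), N.Normal → N.FiniteIndex →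
        IsEmpty (N ≃* Lamp d k l) := by
  have : Fact (1 < d) := ⟨by omega⟩
  have : NeZero d := ⟨by omega⟩
  have h2 : IsUnit (2 : ZMod d) := by
    have := (ZMod.isUnit_iff_coprime 2 d).mpr (Nat.coprime_two_left.mpr hodd)
    exact_mod_cast this
  refine ⟨aut d, isAffine, states_finite, ?_, ?_⟩
  · by_contra hfin
    rw [not_infinite_iff_finite] at hfin
    have h3 := no_law h2 (Nat.card (autGroup (aut d))) 1 Nat.card_pos one_pos
    rw [pow_card_eq_one', pow_card_eq_one'] at h3
    simp at h3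
  · intro k l _ _ N hN hfin
    refine ⟨fun e => ?_⟩
    have hm : 0 < N.index := Nat.pos_of_ne_zero hfin.index_ne_zero
    have hx := N.pow_index_mem (el1 d)
    have hy := N.pow_index_mem (el2 d)
    have h3 := lamp_law (e ⟨_, hx⟩) (e ⟨_, hy⟩)
    rw [← map_inv, ← map_inv, ← map_mul, ← map_mul, ← map_mul, ← map_pow] at h3
    have h4 := e.injective (h3.trans (map_one e).symm)
    have h5 := congrArg (fun x : N => (x : autGroup (aut d))) h4
    exact no_law h2 N.index d hm (by omega) h5

end Pool.Agent.Results.MP_7b3742_al.NotVirtuallyLamplighter
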